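import Mathlib

set_option autoImplicit false

namespace Pool.Agent.Results.MP_0b9f2e_nt.LowerThird

open Finset

/-- `f` is a logarithmic function of length `k` (only its values on `{1, ..., k}` matter). -/
def IsLogarithmic (k : ℕ) (f : ℕ → ZMod k) : Prop :=
  ∀ a b : ℕ, 1 ≤ a → 1 ≤ b → a * b ≤ k → f (a * b) = f a + f b

/-- `M k` is the maximum of `|f([k])|` over the logarithmic functions `f` of length `k`. -/
noncomputable def M (k : ℕ) : ℕ :=
  sSup {m : ℕ | ∃ f : ℕ → ZMod k, IsLogarithmic k f ∧ m = (f '' Set.Icc 1 k).ncard}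

/-- `R k` is the largest `R` with `1 ≤ R ≤ k` such that some logarithmic function of length `k` is
injective on the `R`-smooth elements of `[k]`. -/
noncomputable def R (k : ℕ) : ℕ :=
  sSup {r : ℕ | 1 ≤ r ∧ r ≤ k ∧ ∃ f : ℕ → ZMod k, IsLogarithmic k f ∧
    Set.InjOn f {n : ℕ | 1 ≤ n ∧ n ≤ k ∧ ∀ q : ℕ, q.Prime → q ∣ n → q ≤ r}}

/-- The logarithmic function attached to an arbitrary assignment of values to the primes. -/
def F (k : ℕ) (g : Fin (k + 1) → ZMod k) (n : ℕ) : ZMod k :=
  ∑ q : Fin (k + 1), (n.factorization q : ZMod k) * g q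

theorem F_log (k : ℕ) (g : Fin (k + 1) → ZMod k) : IsLogarithmic k (F k g) := by
  intro a b ha hb _
  unfold F
  rw [← Finset.sum_add_distrib]
  refine Finset.sum_congr rfl fun q _ => ?_
  rw [Nat.factorization_mul (by omega) (by omega)]
  simp only [Finsupp.coe_add, Pi.add_apply]
  push_cast
  ring

/-- The squarefree numbers in `[k]`. -/
def Q (k : ℕ) : Finset ℕ := (Finset.Icc 1 k).filter Squarefree

/-- The number of assignments for which two given distinct squarefree numbers get the same value. -/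
theorem card_coll (k : ℕ) [NeZero k] (m n : ℕ) (hm : m ∈ Q k) (hn : n ∈ Q k) (hmn : m ≠ n) :
    (Finset.univ.filter (fun g : Fin (k + 1) → ZMod k => F k g m = F k g n)).card * k
      = Fintype.card (Fin (k + 1) → ZMod k) := by
  classical
  let φ : (Fin (k + 1) → ZMod k) →+ ZMod k :=
    { toFun := fun g => F k g m - F k g n
      map_zero' := by simp [F]
      map_add' := by
        intro g h
        unfold F
        simp only [Pi.add_apply, mul_add, Finset.sum_add_distrib]
        ring }
  simp only [Q, Finset.mem_filter, Finset.mem_Icc] at hm hn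
  -- a prime dividing exactly one of them
  obtain ⟨q, hq⟩ : ∃ q, m.factorization q ≠ n.factorization q := by
    by_contra hcon
    push Not at hcon
    exact hmn (Nat.eq_of_factorization_eq (by omega) (by omega) hcon)
  have hm1 := (Nat.squarefree_iff_factorization_le_one (by omega)).mp hm.2 q
  have hn1 := (Nat.squarefree_iff_factorization_le_one (by omega)).mp hn.2 q
  have hqk : q < k + 1 := by
    by_contra hcon
    have h1 : m.factorization q = 0 := Nat.factorization_eq_zero_of_lt (by omega)
    have h2 : n.factorization q = 0 := Nat.factorization_eq_zero_of_lt (by omega)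
    exact hq (h1.trans h2.symm)
  have hsurj : Function.Surjective φ := by
    intro v
    have hcase : (m.factorization q = 1 ∧ n.factorization q = 0) ∨
        (m.factorization q = 0 ∧ n.factorization q = 1) := by omega
    have hF : ∀ (c : ZMod k) (x : ℕ), F k (Pi.single (⟨q, hqk⟩ : Fin (k + 1)) c) x
        = (x.factorization q : ZMod k) * c := by
      intro c x
      unfold F
      rw [Finset.sum_eq_single (⟨q, hqk⟩ : Fin (k + 1))]
      · simp
      · intro b _ hb
        rw [Pi.single_eq_of_ne hb, mul_zero]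
      · simp
    rcases hcase with ⟨h1, h2⟩ | ⟨h1, h2⟩
    · refine ⟨Pi.single ⟨q, hqk⟩ v, ?_⟩
      change F k _ m - F k _ n = v
      rw [hF, hF, h1, h2]; simp
    · refine ⟨Pi.single ⟨q, hqk⟩ (-v), ?_⟩
      change F k _ m - F k _ n = v
      rw [hF, hF, h1, h2]; simp
  have hker : (Finset.univ.filter (fun g : Fin (k + 1) → ZMod k => F k g m = F k g n)).card
      = Nat.card φ.ker := by
    rw [Nat.card_eq_fintype_card, Fintype.card_subtype]
    congr 1
    ext g
    simp only [Finset.mem_filter, Finset.mem_univ, true_and, AddMonoidHom.mem_ker]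
    change _ ↔ F k g m - F k g n = 0
    rw [sub_eq_zero]
  have hquot : Nat.card ((Fin (k + 1) → ZMod k) ⧸ φ.ker) = k := by
    rw [Nat.card_congr (QuotientAddGroup.quotientKerEquivOfSurjective φ hsurj).toEquiv,
      Nat.card_zmod]
  have := AddSubgroup.card_eq_card_quotient_mul_card_addSubgroup φ.ker
  rw [hquot] at this
  rw [hker, ← Nat.card_eq_fintype_card, this, mul_comm]

/-- Cauchy–Schwarz for the fibres of a map. -/
theorem fibres {α β : Type*} [DecidableEq β] [DecidableEq α] (A : Finset α) (h : α → β) :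
    A.card ^ 2 ≤ (A.image h).card *
      ((A ×ˢ A).filter (fun x => h x.1 = h x.2)).card := by
  have h1 : A.card = ∑ v ∈ A.image h, (A.filter (fun a => h a = v)).card :=
    Finset.card_eq_sum_card_image h A
  have h2 : ((A ×ˢ A).filter (fun x => h x.1 = h x.2)).card
      = ∑ v ∈ A.image h, (A.filter (fun a => h a = v)).card ^ 2 := by
    rw [Finset.card_eq_sum_card_fiberwise (f := fun x : α × α => h x.1) (t := A.image h)]
    · refine Finset.sum_congr rfl fun v _ => ?_
      rw [pow_two, ← Finset.card_product]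
      congr 1
      ext ⟨a, b⟩
      simp only [Finset.mem_filter, Finset.mem_product]
      constructor
      · rintro ⟨⟨⟨ha, hb⟩, hab⟩, hv⟩
        exact ⟨⟨ha, hv⟩, ⟨hb, hab ▸ hv⟩⟩
      · rintro ⟨⟨ha, hv⟩, ⟨hb, hv'⟩⟩
        exact ⟨⟨⟨ha, hb⟩, hv.trans hv'.symm⟩, hv⟩
    · intro x hx
      simp only [Finset.coe_filter, Finset.mem_product, Set.mem_ofPred_eq] at hx
      simp only [Finset.coe_image, Set.mem_image, Finset.mem_coe]
      exact ⟨x.1, hx.1.1, rfl⟩
  rw [h2]
  conv_lhs => rw [h1]
  exact sq_sum_le_card_mul_sum_sq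

/-- Averaging: some assignment has few collisions among the squarefree numbers. -/
theorem exists_g (k : ℕ) [NeZero k] : ∃ g : Fin (k + 1) → ZMod k,
    (((Q k) ×ˢ (Q k)).filter (fun x => F k g x.1 = F k g x.2)).card * k
      ≤ (Q k).card * k + (Q k).card ^ 2 := by
  classical
  by_contra hcon
  push Not at hcon
  set T := Fintype.card (Fin (k + 1) → ZMod k) with hT
  have hTpos : 0 < T := Fintype.card_pos
  have hsum : ∑ g : Fin (k + 1) → ZMod k,
      (((Q k) ×ˢ (Q k)).filter (fun x => F k g x.1 = F k g x.2)).card * k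
      ≤ T * ((Q k).card * k + (Q k).card ^ 2) := by
    have h1 : ∀ g : Fin (k + 1) → ZMod k,
        (((Q k) ×ˢ (Q k)).filter (fun x => F k g x.1 = F k g x.2)).card
        = ∑ x ∈ (Q k) ×ˢ (Q k), if F k g x.1 = F k g x.2 then 1 else 0 := fun g => by
      rw [Finset.card_filter]
    calc ∑ g : Fin (k + 1) → ZMod k,
          (((Q k) ×ˢ (Q k)).filter (fun x => F k g x.1 = F k g x.2)).card * k
        = ∑ x ∈ (Q k) ×ˢ (Q k), (Finset.univ.filter
            (fun g : Fin (k + 1) → ZMod k => F k g x.1 = F k g x.2)).card * k := by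
          simp only [h1, Finset.card_filter]
          simp only [Finset.sum_mul]
          rw [Finset.sum_comm]
      _ ≤ ∑ x ∈ (Q k) ×ˢ (Q k), (T + if x.1 = x.2 then T * k else 0) := by
          refine Finset.sum_le_sum fun x hx => ?_
          rw [Finset.mem_product] at hx
          by_cases hxx : x.1 = x.2
          · simp only [hxx, if_true, Finset.filter_true, Finset.card_univ, ← hT]
            omega
          · rw [card_coll k x.1 x.2 hx.1 hx.2 hxx]
            simp [hT]
      _ = T * ((Q k).card * k + (Q k).card ^ 2) := by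
          rw [Finset.sum_add_distrib, Finset.sum_const, Finset.card_product, smul_eq_mul,
            ← Finset.sum_filter, Finset.sum_const, smul_eq_mul]
          have h2 : (((Q k) ×ˢ (Q k)).filter (fun x => x.1 = x.2)).card = (Q k).card := by
            rw [← Finset.diag_card (Q k)]
            congr 1
            ext ⟨a, b⟩
            simp only [Finset.mem_filter, Finset.mem_product, Finset.mem_diag]
            constructor
            · rintro ⟨⟨h, _⟩, h'⟩; exact ⟨h, h'⟩
            · rintro ⟨h, h'⟩; exact ⟨⟨h, h' ▸ h⟩, h'⟩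
          rw [h2]
          ring
  have hlt : T * ((Q k).card * k + (Q k).card ^ 2) < ∑ g : Fin (k + 1) → ZMod k,
      (((Q k) ×ˢ (Q k)).filter (fun x => F k g x.1 = F k g x.2)).card * k := by
    have : ∑ _g : Fin (k + 1) → ZMod k, ((Q k).card * k + (Q k).card ^ 2)
        = T * ((Q k).card * k + (Q k).card ^ 2) := by
      rw [Finset.sum_const, Finset.card_univ, smul_eq_mul]
    rw [← this]
    refine Finset.sum_lt_sum_of_nonempty ?_ (fun g _ => hcon g)
    exact ⟨0, Finset.mem_univ _⟩
  omega

/-- At least half of the numbers up to `k` are squarefree. -/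
theorem half_squarefree (k : ℕ) : k ≤ 2 * (Q k).card := by
  classical
  have hcompl : (Q k).card + ((Finset.Icc 1 k).filter (fun n => ¬ Squarefree n)).card = k := by
    unfold Q
    rw [Finset.card_filter_add_card_filter_not]
    simp
  have hsub : (Finset.Icc 1 k).filter (fun n => ¬ Squarefree n) ⊆
      (Finset.Ioc 0 k).filter (fun n => 4 ∣ n) ∪
      (Finset.Icc 1 k).biUnion (fun j => (Finset.Ioc 0 k).filter (fun n => (2 * j + 1) ^ 2 ∣ n)) := by
    intro n hn
    simp only [Finset.mem_filter, Finset.mem_Icc] at hn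
    obtain ⟨⟨hn1, hn2⟩, hsq⟩ := hn
    rw [Nat.squarefree_iff_prime_squarefree] at hsq
    push Not at hsq
    obtain ⟨q, hq, hdvd⟩ := hsq
    rcases hq.eq_two_or_odd' with rfl | hodd
    · rw [Finset.mem_union]; left
      simp only [Finset.mem_filter, Finset.mem_Ioc]
      exact ⟨⟨by omega, hn2⟩, by simpa using hdvd⟩
    · rw [Finset.mem_union]; right
      obtain ⟨j, hj⟩ := hodd
      have hj1 : 1 ≤ j := by
        have := hq.two_le
        omega
      rw [Finset.mem_biUnion]
      refine ⟨j, ?_, ?_⟩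
      · rw [Finset.mem_Icc]
        refine ⟨hj1, ?_⟩
        have h1 : q * q ≤ n := Nat.le_of_dvd (by omega) hdvd
        nlinarith
      · simp only [Finset.mem_filter, Finset.mem_Ioc]
        refine ⟨⟨by omega, hn2⟩, ?_⟩
        rw [← hj, pow_two]; exact hdvd
  have hcard := (Finset.card_le_card hsub).trans (Finset.card_union_le _ _)
  have hcard2 := hcard.trans (Nat.add_le_add_left Finset.card_biUnion_le _)
  simp only [Nat.Ioc_filter_dvd_card_eq_div] at hcard2
  have htel : ∀ m : ℕ, ∑ j ∈ Finset.Icc 1 m, (1 : ℚ) / (2 * (j : ℚ) + 1) ^ 2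
      ≤ 1 / 4 * (1 - 1 / ((m : ℚ) + 1)) := by
    intro m
    induction m with
    | zero => simp
    | succ m ih =>
      rw [Finset.sum_Icc_succ_top (by omega)]
      have h1 : (1 : ℚ) / (2 * ((m + 1 : ℕ) : ℚ) + 1) ^ 2 ≤
          1 / 4 * (1 / ((m : ℚ) + 1) - 1 / (((m + 1 : ℕ) : ℚ) + 1)) := by
        push_cast
        have h2 : (1 : ℚ) / 4 * (1 / ((m : ℚ) + 1) - 1 / ((m : ℚ) + 1 + 1))
            = 1 / (4 * (((m : ℚ) + 1) * ((m : ℚ) + 2))) := by
          field_simp
          ring
        rw [h2]
        apply one_div_le_one_div_of_le (by positivity)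
        nlinarith
      linarith
  have hreal : (((Finset.Icc 1 k).filter (fun n => ¬ Squarefree n)).card : ℚ) ≤ (k : ℚ) / 2 := by
    calc (((Finset.Icc 1 k).filter (fun n => ¬ Squarefree n)).card : ℚ)
        ≤ ((k / 4 + ∑ j ∈ Finset.Icc 1 k, k / (2 * j + 1) ^ 2 : ℕ) : ℚ) := by
          exact_mod_cast hcard2
      _ ≤ (k : ℚ) / 4 + ∑ j ∈ Finset.Icc 1 k, (k : ℚ) * (1 / (2 * (j : ℚ) + 1) ^ 2) := by
          push_cast
          apply add_le_add
          · exact_mod_cast Nat.cast_div_le (α := ℚ) (m := k) (n := 4)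
          · refine Finset.sum_le_sum fun j _ => ?_
            refine (Nat.cast_div_le (α := ℚ)).trans ?_
            push_cast
            rw [mul_one_div]
      _ ≤ (k : ℚ) / 4 + (k : ℚ) * (1 / 4 * (1 - 1 / ((k : ℚ) + 1))) := by
          rw [← Finset.mul_sum]
          have := htel k
          gcongr
      _ ≤ (k : ℚ) / 2 := by
          have h3 : (0 : ℚ) ≤ 1 / ((k : ℚ) + 1) := by positivity
          have h4 : (0 : ℚ) ≤ k := by positivity
          nlinarith
  have h5 : (((Q k).card : ℕ) : ℚ) + (((Finset.Icc 1 k).filter (fun n => ¬ Squarefree n)).card : ℚ)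
      = k := by exact_mod_cast hcompl
  have h6 : (k : ℚ) ≤ 2 * ((Q k).card : ℚ) := by linarith
  exact_mod_cast h6

theorem third (k : ℕ) (hk : 1 ≤ k) : k ≤ 3 * M k := by
  classical
  have : NeZero k := ⟨by omega⟩
  obtain ⟨g, hg⟩ := exists_g k
  have hfib := fibres (Q k) (F k g)
  have hhalf := half_squarefree k
  set I := ((Q k).image (F k g)).card with hI
  set N := (((Q k) ×ˢ (Q k)).filter (fun x => F k g x.1 = F k g x.2)).card with hN
  set q := (Q k).card with hq
  have hqpos : 0 < q := by omega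
  -- q^2 k ≤ I (q k + q^2)
  have h1 : q * (q * k) ≤ q * (I * (k + q)) := by
    calc q * (q * k) = q ^ 2 * k := by ring
      _ ≤ I * N * k := Nat.mul_le_mul_right _ hfib
      _ = I * (N * k) := by ring
      _ ≤ I * (q * k + q ^ 2) := Nat.mul_le_mul_left _ hg
      _ = q * (I * (k + q)) := by ring
  have h2 : q * k ≤ I * (k + q) := Nat.le_of_mul_le_mul_left h1 hqpos
  have h3 : k ≤ 3 * I := by
    by_contra hcon
    push Not at hcon
    nlinarith
  have hIM : I ≤ M k := by
    have hbdd : BddAbove {m : ℕ | ∃ f : ℕ → ZMod k, IsLogarithmic k f ∧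
        m = (f '' Set.Icc 1 k).ncard} := by
      refine ⟨k, ?_⟩
      rintro m ⟨f, _, rfl⟩
      calc (f '' Set.Icc 1 k).ncard ≤ (Set.Icc 1 k).ncard := Set.ncard_image_le (Set.finite_Icc _ _)
        _ = k := by rw [Set.ncard_eq_toFinset_card']; simp
    refine le_trans ?_ (le_csSup hbdd ⟨F k g, F_log k g, rfl⟩)
    rw [hI, ← Set.ncard_coe_finset]
    refine Set.ncard_le_ncard ?_ ((Set.finite_Icc _ _).image _)
    rw [Finset.coe_image]
    apply Set.image_mono
    intro n hn
    have : n ∈ Q k := hn
    simp only [Q, Finset.mem_filter, Finset.mem_Icc] at this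
    exact this.1
  omega

/-- `M_k ≥ k/3` for every `k ≥ 1`; in particular `liminf M_k/k ≥ 1/3 > 0`, so it is false that
`liminf M_k/k = 0` and `liminf R_k/k = 0`. -/
theorem result :
    (∀ k : ℕ, 1 ≤ k → (k : ℝ) / 3 ≤ M k) ∧
    (1 / 3 : ℝ) ≤ Filter.liminf (fun k : ℕ => (M k : ℝ) / k) Filter.atTop ∧
    ¬ (Filter.liminf (fun k : ℕ => (M k : ℝ) / k) Filter.atTop = 0 ∧
       Filter.liminf (fun k : ℕ => (R k : ℝ) / k) Filter.atTop = 0) := by
  have h1 : ∀ k : ℕ, 1 ≤ k → (k : ℝ) / 3 ≤ M k := by
    intro k hk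
    have := third k hk
    have h : (k : ℝ) ≤ 3 * (M k : ℝ) := by exact_mod_cast this
    linarith
  have hMk : ∀ k : ℕ, M k ≤ k := by
    intro k
    unfold M
    rcases Set.eq_empty_or_nonempty {m : ℕ | ∃ f : ℕ → ZMod k, IsLogarithmic k f ∧
        m = (f '' Set.Icc 1 k).ncard} with h | h
    · rw [h]; simp
    · apply csSup_le h
      rintro m ⟨f, _, rfl⟩
      calc (f '' Set.Icc 1 k).ncard ≤ (Set.Icc 1 k).ncard := Set.ncard_image_le (Set.finite_Icc _ _)
        _ = k := by rw [Set.ncard_eq_toFinset_card']; simp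
  have h2 : (1 / 3 : ℝ) ≤ Filter.liminf (fun k : ℕ => (M k : ℝ) / k) Filter.atTop := by
    apply Filter.le_liminf_of_le
    · refine Filter.IsCoboundedUnder.of_frequently_le (a := 1) (Filter.Frequently.of_forall ?_)
      intro k
      rcases Nat.eq_zero_or_pos k with rfl | hk
      · simp
      · rw [div_le_one (by exact_mod_cast hk)]
        exact_mod_cast hMk k
    · filter_upwards [Filter.eventually_ge_atTop 1] with k hk
      have hk' : (0 : ℝ) < k := by exact_mod_cast hk
      rw [le_div_iff₀ hk']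
      have := h1 k hk
      linarith
  refine ⟨h1, h2, fun h => ?_⟩
  rw [h.1] at h2
  norm_num at h2

end Pool.Agent.Results.MP_0b9f2e_nt.LowerThird
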